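import Pool.Agent.H8.UB.Targets

/-!
Module ART of the board ubd_modules (helper8, MP_404602_al): Theorem 2.
-/

set_option autoImplicit false

open Set

namespace Pool.Agent.H94.UB

open Pool.Agent.H8.UB Pool.Agent.H56.UDs MulOpposite

/-- a commutative central subring and its image in the opposite ring -/
def opHom {R : Type} [Ring R] (K : Subring R) (hK : K ≤ Subring.center R) : K →+* K.op where
  toFun x := ⟨op (x : R), x.2⟩
  map_one' := rfl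
  map_zero' := rfl
  map_add' _ _ := rfl
  map_mul' x y := Subtype.ext (congrArg op (Subring.mem_center_iff.1 (hK y.2) (x : R)))

theorem opHom_surj {R : Type} [Ring R] (K : Subring R) (hK : K ≤ Subring.center R) :
    Function.Surjective (opHom K hK) := fun y => ⟨⟨unop (y : Rᵐᵒᵖ), y.2⟩, rfl⟩

theorem artin_op {R : Type} [Ring R] (h : IsArtinAlg R) : IsArtinAlg Rᵐᵒᵖ := by
  obtain ⟨K, hK, hA, hF⟩ := h
  refine ⟨K.op, ?_, ?_, ?_⟩
  · intro x hx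
    rw [Subring.mem_center_iff]
    intro y
    have h1 := Subring.mem_center_iff.1 (hK (show unop x ∈ K from hx)) (unop y)
    exact unop_injective h1.symm
  · exact (opHom_surj K hK).isArtinianRing
  · have : RingHomSurjective (opHom K hK) := ⟨opHom_surj K hK⟩
    let f : R →ₛₗ[opHom K hK] Rᵐᵒᵖ :=
      { toFun := fun x => op x
        map_add' := fun _ _ => rfl
        map_smul' := fun k x => by
          change op ((k : R) * x) = op (k : R) * op x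
          rw [← op_mul]
          exact congrArg op (Subring.mem_center_iff.1 (hK k.2) x).symm }
    exact Module.Finite.of_surjective f op_surjective

theorem noeth {R : Type} [Ring R] (h : IsArtinAlg R) : IsNoetherianRing R := by
  obtain ⟨K, hK, hA, hF⟩ := h
  have h1 : IsNoetherianRing K := inferInstance
  have h2 : IsNoetherian K R := isNoetherian_of_isNoetherianRing_of_finite K R
  exact isNoetherian_of_tower K h2

theorem count_Iio {γ : Ordinal.{0}} (h : γ.card ≤ Cardinal.aleph0) : (Iio γ).Countable := by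
  rw [← Cardinal.le_aleph0_iff_set_countable, Cardinal.mk_Iio_ordinal,
    ← Cardinal.lift_aleph0.{1, 0}, Cardinal.lift_le]
  exact h

theorem UD_op (hRIG : T_RIG) (S : Type) [Ring S] : UD Sᵐᵒᵖ = UDl S :=
  (hRIG S Sᵐᵒᵖᵐᵒᵖ (RingEquiv.opOp S)).symm

theorem pf_ART (hLSG : T_LSG) (hACL : T_ACL) (hRIG : T_RIG) (hMOC : T_MOC) (hMOU : T_MOU) :
    T_ART := by
  intro R _ hR ρ hρ
  have hS := artin_op hR
  have hN := noeth hS
  have hcoh : Coh (FGModuleCat.{0} Rᵐᵒᵖ) := (hMOC Rᵐᵒᵖ).1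
  have hfp : Fact (IsFP (UF Rᵐᵒᵖ)) := ⟨(hMOC Rᵐᵒᵖ).2.1⟩
  have hrk : rk.{0} (LL (UF Rᵐᵒᵖ)) = ρ := (hMOU Rᵐᵒᵖ).symm.trans hρ
  obtain ⟨Φ, hΦ, hcl⟩ := hACL Rᵐᵒᵖ hS
  have key : ∀ γ : Ordinal.{0}, γ ≤ ρ → γ.card ≤ Cardinal.aleph0 →
      ∃ (R₀ : Type) (_ : Ring R₀) (_ : Countable R₀) (ρ₀ : Ordinal.{0}), IsArtinAlg R₀ ∧
        UD R₀ = ρ₀ ∧ γ ≤ ρ₀ ∧ ρ₀.card ≤ Cardinal.aleph0 ∧ ρ₀ ≤ ρ := by
    intro γ hγ hc
    obtain ⟨S₀, hS₀, hS₀c, h1⟩ := hLSG Rᵐᵒᵖ ρ hrk (Iio γ) (count_Iio hc)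
      (fun ξ hξ => lt_of_lt_of_le hξ hγ) Φ hΦ
    obtain ⟨ha, hn⟩ := hcl S₀ hS₀c
    obtain ⟨ρ', h2, h3, h4, h5⟩ := h1 hn
    have : Countable S₀ := hS₀
    refine ⟨S₀ᵐᵒᵖ, inferInstance, unop_injective.countable, ρ', artin_op ha, ?_,
      h5 γ hγ fun δ hδ => hδ, h3, h4⟩
    rw [UD_op hRIG]
    exact h2
  refine ⟨?_, ?_⟩
  · intro hc
    obtain ⟨R₀, i1, i2, ρ₀, h1, h2, h3, -, h4⟩ := key ρ le_rfl hc
    refine ⟨R₀, i1, i2, h1, ?_⟩
    rw [h2, le_antisymm h4 h3]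
  · intro γ hγ hc
    obtain ⟨R₀, i1, i2, ρ₀, h1, h2, h3, h4, -⟩ := key γ hγ hc
    exact ⟨R₀, i1, i2, ρ₀, h1, h2, h3, h4⟩

end Pool.Agent.H94.UB
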